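import Pool.Agent.U481.EV.Stm

/-!
Project EV, package FOUR (helper873 for helper481).
-/

set_option autoImplicit false

open MeasureTheory Set
open scoped ENNReal NNReal ContDiff

namespace Pool.Agent.U873.EV

open H772R2.NS Pool.Agent.U481.EV

theorem rot_cont : Continuous rot := by
  unfold rot
  refine (PiLp.continuous_toLp 2 _).comp (continuous_pi fun i => ?_)
  fin_cases i <;> simp <;> fun_prop

theorem rot_sq (z : M3) : ‖rot z‖ ^ 2 ≤ 2 * ‖z‖ ^ 2 := by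
  rw [EuclideanSpace.norm_sq_eq, EuclideanSpace.norm_sq_eq, Fintype.sum_prod_type]
  simp only [Fin.sum_univ_three, rot, Real.norm_eq_abs, sq_abs]
  simp
  nlinarith [sq_nonneg (z (2, 1) + z (1, 2)), sq_nonneg (z (0, 2) + z (2, 0)),
    sq_nonneg (z (1, 0) + z (0, 1)), sq_nonneg (z (0, 0)), sq_nonneg (z (1, 1)),
    sq_nonneg (z (2, 2))]

theorem rot_esq (z : M3) : ‖rot z‖ₑ ^ 2 ≤ 2 * ‖z‖ₑ ^ 2 := by
  have h := ENNReal.ofReal_le_ofReal (rot_sq z)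
  rw [ENNReal.ofReal_mul (by norm_num), ENNReal.ofReal_pow (norm_nonneg _),
    ENNReal.ofReal_pow (norm_nonneg _), ENNReal.ofReal_ofNat] at h
  rw [← ofReal_norm, ← ofReal_norm]
  exact h

theorem ePow {E : Type} [NormedAddCommGroup E] (f : E3 → E) (μ : Measure E3) (k : ℕ) (hk : k ≠ 0) :
    eLpNorm f (k : ℝ≥0∞) μ ^ k = ∫⁻ x, ‖f x‖ₑ ^ k ∂μ := by
  rw [eLpNorm_eq_lintegral_rpow_enorm_toReal (by exact_mod_cast hk) (ENNReal.natCast_ne_top k)]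
  simp only [ENNReal.toReal_natCast, ENNReal.rpow_natCast]
  rw [← ENNReal.rpow_natCast, ← ENNReal.rpow_mul]
  have : (1 / (k : ℝ)) * k = 1 := by
    have : (k : ℝ) ≠ 0 := by exact_mod_cast hk
    field_simp
  rw [this, ENNReal.rpow_one]

theorem norm_sq_lint {E : Type} [NormedAddCommGroup E] {Ω : Set E3}
    (z : Lp E 2 (volume.restrict Ω)) : ∫⁻ y in Ω, ‖z y‖ₑ ^ 2 = ENNReal.ofReal (‖z‖ ^ 2) := by
  have h := ePow z (volume.restrict Ω) 2 (by norm_num)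
  rw [← h, ENNReal.ofReal_pow (norm_nonneg _), ofReal_norm, Lp.enorm_def]
  norm_num

theorem main : S_den → S_hed → S_mor → S_four := by
  rintro ⟨C0, hden⟩ ⟨C1, hhed⟩ ⟨C2, hmor⟩ κ m R M hκ hκ1 hm hR hM
  set B : ℝ := 4 / κ ^ 3 * (M / √R + m * R ^ 2) with hB
  have hB0 : 0 ≤ B := by positivity
  set A : ℝ≥0 := C0 * (C2 * B.toNNReal) with hA
  set ρ : ℝ≥0 := (κ * R / 8).toNNReal with hρ
  have hρ0 : 0 < ρ := Real.toNNReal_pos.2 (by positivity)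
  refine ⟨C1 * (A ^ 2 * (C0 ^ 2 * 2)) + C1 * ρ⁻¹ * ((C0 ^ 2 * 2) * (M.toNNReal) ^ 2), ?_⟩
  intro Ω hΩ v z hvz hvM hdir
  have hzm : Measurable (fun y => ‖rot (z y)‖ₑ) :=
    (rot_cont.measurable.comp (Lp.stronglyMeasurable z).measurable).enorm
  have hvm : Measurable (fun y => ‖v y‖ₑ) := (Lp.stronglyMeasurable v).measurable.enorm
  set f : E3 → ℝ≥0∞ := fun y => (C0 : ℝ≥0∞) * Ω.indicator (fun y => ‖rot (z y)‖ₑ) y with hf
  set w : E3 → ℝ≥0∞ := Ω.indicator (fun y => ‖v y‖ₑ) with hw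
  have hfm : Measurable f := (hzm.indicator hΩ).const_mul _
  have hwm : Measurable w := hvm.indicator hΩ
  have hpt : ∀ᵐ a, w a ≤ ∫⁻ y, f y * (‖a - y‖ₑ ^ 2)⁻¹ := by
    have h1 := (ae_restrict_iff' hΩ).1 (hden Ω hΩ v z hvz)
    filter_upwards [h1] with a ha
    by_cases haΩ : a ∈ Ω
    · rw [hw, indicator_of_mem haΩ]
      refine (ha haΩ).trans (le_of_eq ?_)
      have e1 : ∀ y, f y * (‖a - y‖ₑ ^ 2)⁻¹ =
          (C0 : ℝ≥0∞) * Ω.indicator (fun y => ‖rot (z y)‖ₑ * (‖a - y‖ₑ ^ 2)⁻¹) y := by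
        intro y
        rw [hf]
        simp only
        by_cases hy : y ∈ Ω
        · rw [indicator_of_mem hy, indicator_of_mem hy, mul_assoc]
        · rw [indicator_of_notMem hy, indicator_of_notMem hy, mul_zero, zero_mul]
      simp_rw [e1]
      rw [lintegral_const_mul' _ _ ENNReal.coe_ne_top, lintegral_indicator hΩ]
    · rw [hw, indicator_of_notMem haΩ]
      exact zero_le
  have hgrow : ∀ (a : E3) (r : ℝ≥0), r ≤ 2 * ρ → ∫⁻ y in Metric.ball a r, f y ≤ A * r := by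
    intro a r hr
    rcases eq_or_lt_of_le (zero_le : (0 : ℝ≥0) ≤ r) with h0 | h0
    · rw [← h0]
      simp
    obtain ⟨g, hg1, hg2, hg3⟩ := hdir a
    have hr0 : (0 : ℝ) < r := by exact_mod_cast h0
    have hrR : (r : ℝ) ≤ κ * R / 4 := by
      have h2 : (r : ℝ) ≤ 2 * (ρ : ℝ) := by exact_mod_cast hr
      rw [hρ, Real.coe_toNNReal _ (by positivity)] at h2
      linarith
    have h3 := hmor Ω hΩ v z hvz κ m R hκ hκ1 hm hR a g hg1 hg2 hg3 (4 * r / κ) (by positivity)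
      (by rw [div_le_iff₀ hκ]; linarith)
    have e2 : κ * (4 * r / κ) / 4 = r := by field_simp
    rw [e2] at h3
    have e3 : ∫⁻ y in Metric.ball a r, f y =
        (C0 : ℝ≥0∞) * ∫⁻ y in Ω ∩ Metric.ball a r, ‖rot (z y)‖ₑ := by
      rw [hf]
      rw [lintegral_const_mul' _ _ ENNReal.coe_ne_top, lintegral_indicator hΩ,
        Measure.restrict_restrict hΩ]
    rw [e3, hA]
    have e4 : ENNReal.ofReal (4 * r / κ / κ ^ 2 * (‖v‖ / √R + m * R ^ 2)) ≤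
        ENNReal.ofReal B * r := by
      rw [← ENNReal.ofReal_coe_nnreal (p := r), ← ENNReal.ofReal_mul hB0]
      apply ENNReal.ofReal_le_ofReal
      have h5 : ‖v‖ / √R ≤ M / √R := div_le_div_of_nonneg_right hvM (Real.sqrt_nonneg _)
      calc 4 * (r : ℝ) / κ / κ ^ 2 * (‖v‖ / √R + m * R ^ 2)
          ≤ 4 * (r : ℝ) / κ / κ ^ 2 * (M / √R + m * R ^ 2) :=
            mul_le_mul_of_nonneg_left (by linarith) (by positivity)
        _ = B * r := by rw [hB]; field_simp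
    calc (C0 : ℝ≥0∞) * ∫⁻ y in Ω ∩ Metric.ball a r, ‖rot (z y)‖ₑ
        ≤ C0 * (C2 * (ENNReal.ofReal B * r)) := by gcongr; exact h3.trans (by gcongr)
      _ = ((C0 * (C2 * B.toNNReal) : ℝ≥0) : ℝ≥0∞) * r := by
          push_cast
          rw [ENNReal.ofReal]
          ring
  have hmain := hhed f w hfm hwm.aemeasurable hpt A ρ hρ0 hgrow
  have hf2 : ∫⁻ y, f y ^ 2 ≤ ((C0 ^ 2 * 2 : ℝ≥0) : ℝ≥0∞) * ENNReal.ofReal (‖z‖ ^ 2) := by
    have e5 : ∀ y, f y ^ 2 ≤ Ω.indicator (fun y => ((C0 ^ 2 * 2 : ℝ≥0) : ℝ≥0∞) * ‖z y‖ₑ ^ 2) y := by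
      intro y
      rw [hf]
      simp only
      by_cases hy : y ∈ Ω
      · rw [indicator_of_mem hy, indicator_of_mem hy, mul_pow]
        push_cast
        rw [mul_assoc]
        gcongr
        exact rot_esq _
      · rw [indicator_of_notMem hy, indicator_of_notMem hy, mul_zero]
        simp
    refine (lintegral_mono e5).trans (le_of_eq ?_)
    rw [lintegral_indicator hΩ, lintegral_const_mul' _ _ ENNReal.coe_ne_top, norm_sq_lint]
  have hw2 : ∫⁻ a, w a ^ 2 ≤ ((M.toNNReal ^ 2 : ℝ≥0) : ℝ≥0∞) := by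
    have e6 : ∀ y, w y ^ 2 = Ω.indicator (fun y => ‖v y‖ₑ ^ 2) y := by
      intro y
      rw [hw]
      by_cases hy : y ∈ Ω
      · rw [indicator_of_mem hy, indicator_of_mem hy]
      · rw [indicator_of_notMem hy, indicator_of_notMem hy]
        simp
    simp_rw [e6]
    rw [lintegral_indicator hΩ, norm_sq_lint, ENNReal.coe_pow, ENNReal.ofReal_pow (norm_nonneg _)]
    exact pow_le_pow_left₀ zero_le (ENNReal.ofReal_le_ofReal hvM) 2
  have hw4 : (eLpNorm v 4 (volume.restrict Ω)) ^ 4 = ∫⁻ a, w a ^ 4 := by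
    have h := ePow v (volume.restrict Ω) 4 (by norm_num)
    have e7 : ∀ y, w y ^ 4 = Ω.indicator (fun y => ‖v y‖ₑ ^ 4) y := by
      intro y
      rw [hw]
      by_cases hy : y ∈ Ω
      · rw [indicator_of_mem hy, indicator_of_mem hy]
      · rw [indicator_of_notMem hy, indicator_of_notMem hy]
        simp
    simp_rw [e7]
    rw [lintegral_indicator hΩ, ← h]
    norm_num
  rw [hw4]
  refine hmain.trans ?_
  push_cast
  have hρi : ((ρ : ℝ≥0∞))⁻¹ = ((ρ⁻¹ : ℝ≥0) : ℝ≥0∞) := (ENNReal.coe_inv hρ0.ne').symm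
  calc (C1 : ℝ≥0∞) * ((A : ℝ≥0∞) ^ 2 * ∫⁻ y, f y ^ 2)
      + C1 * (ρ : ℝ≥0∞)⁻¹ * ((∫⁻ y, f y ^ 2) * ∫⁻ a, w a ^ 2)
      ≤ (C1 : ℝ≥0∞) * ((A : ℝ≥0∞) ^ 2 * (((C0 ^ 2 * 2 : ℝ≥0) : ℝ≥0∞) * ENNReal.ofReal (‖z‖ ^ 2)))
      + C1 * (ρ : ℝ≥0∞)⁻¹ * ((((C0 ^ 2 * 2 : ℝ≥0) : ℝ≥0∞) * ENNReal.ofReal (‖z‖ ^ 2)) *
        ((M.toNNReal ^ 2 : ℝ≥0) : ℝ≥0∞)) := by gcongr
    _ = _ := by
      rw [hρi]
      push_cast
      ring

end Pool.Agent.U873.EV
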